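import Mathlib
import Pool.Agent.Run7.h866.NU.Sym
import Pool.Agent.TH603.Cut.Deg

set_option autoImplicit false

/-!
# Nef classes which reflections carry to controlled classes are non-special

A function `v` is near-uniform on a set `T` of points if `|T| ≥ 200` and `v i ∈ {m, m + 1}` on `T` for
some `m ≥ 1`, or `|T| ≥ 37` and `v` is close to a constant `m ≥ (|T| + 6) / 2` on `T`. A class `(d; w)` is
controlled if for such `T`, `v`
* `w = v` on `T` and `w ≤ 1` at the other points, or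
* `w ≤ v` on `T`, `w ≤ 1` at the other points and `∑_T (v i + 1).choose 2 ≤ (d + 2).choose 2`, or
* `w ≥ v` on `T` and `(d + 2).choose 2 ≤ ∑_T (v i + 1).choose 2`.

Let `P 1, …, P n` be very general points of the complex projective plane, and let `(d; w)` be a nef
class on the blow-up `X_n`. If finitely many reflections in classes `H - E_i - E_j - E_k` carry `(d; w)`
to a controlled class, then `(d; w)` is non-special.
-/

namespace Pool.Agent.Results.MP_0f5763_ag.NefControlledOrbits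

open MvPolynomial

/-- The homogeneous ideal of the point `(p 0 : p 1 : 1)`. -/
noncomputable def pt (p : Fin 2 → ℂ) : Ideal (MvPolynomial (Fin 3) ℂ) :=
  Ideal.span {X 0 - C (p 0) * X 2, X 1 - C (p 1) * X 2}

/-- The class `(d; w)` is nef at the points `P`: it meets every irreducible curve nonnegatively. An
irreducible curve other than the exceptional ones is given by an irreducible form `G` of degree `e`
with multiplicity exactly `u i` at `P i`. -/
def Nef {n : ℕ} (P : Fin n → Fin 2 → ℂ) (d : ℕ) (w : Fin n → ℕ) : Prop :=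
  ∀ (G : MvPolynomial (Fin 3) ℂ) (e : ℕ) (u : Fin n → ℕ), Irreducible G → G.IsHomogeneous e →
    (∀ i, G ∈ pt (P i) ^ (u i) ∧ G ∉ pt (P i) ^ (u i + 1)) → ∑ i, w i * u i ≤ d * e

/-- The linear system `(d; w)` at the points `P` is non-special: the space of forms of degree `d`
vanishing to order at least `w i` at `P i` has dimension
`max (0, (d + 1) (d + 2) / 2 - ∑ w i (w i + 1) / 2)`. -/
def NonSpecial {n : ℕ} (P : Fin n → Fin 2 → ℂ) (d : ℕ) (w : Fin n → ℕ) : Prop :=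
  Module.finrank ℂ
    ↥(homogeneousSubmodule (Fin 3) ℂ d ⊓
      Submodule.restrictScalars ℂ (⨅ i : Fin n, pt (P i) ^ (w i)))
  = Nat.choose (d + 2) 2 - ∑ i, Nat.choose (w i + 1) 2

/-- The reflection of the class `a = (d; w)`, `d H - ∑ w l E l`, in the class
`H - E (i 0) - E (i 1) - E (i 2)`: with `δ = d - w (i 0) - w (i 1) - w (i 2)`, the numbers
`d`, `w (i 0)`, `w (i 1)`, `w (i 2)` are increased by `δ`. -/
def reflect {n : ℕ} (i : Fin 3 → Fin n) (a : ℤ × (Fin n → ℤ)) : ℤ × (Fin n → ℤ) :=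
  (a.1 + (a.1 - a.2 (i 0) - a.2 (i 1) - a.2 (i 2)),
    fun l => a.2 l + if l = i 0 ∨ l = i 1 ∨ l = i 2 then a.1 - a.2 (i 0) - a.2 (i 1) - a.2 (i 2)
      else 0)

/-- Finitely many reflections carry `(d; w)` to `(d'; w')`. -/
def Carries {n : ℕ} (d : ℕ) (w : Fin n → ℕ) (d' : ℕ) (w' : Fin n → ℕ) : Prop :=
  Relation.ReflTransGen
    (fun a b : ℤ × (Fin n → ℤ) => ∃ i : Fin 3 → Fin n, Function.Injective i ∧ b = reflect i a)
    ((d : ℤ), fun l => (w l : ℤ)) ((d' : ℤ), fun l => (w' l : ℤ))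

/-- `Very n Q`: the statement `Q` holds for all `n`-tuples of points outside countably many
hypersurfaces. -/
def Very (n : ℕ) (Q : (Fin n → Fin 2 → ℂ) → Prop) : Prop :=
  ∃ F : ℕ → MvPolynomial (Fin n × Fin 2) ℂ, (∀ j, F j ≠ 0) ∧ ∀ P : Fin n → Fin 2 → ℂ,
    (∀ j, MvPolynomial.eval (fun ij : Fin n × Fin 2 => P ij.1 ij.2) (F j) ≠ 0) → Q P

/-- The cost of a multiplicity `e ≤ m + 1`. -/
def cost (m e : ℕ) : ℕ := if e < m then 4 * (m - e) - 2 else if e = m then 0 else 1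

/-- `0, 5, 2, 3` for `t ≡ 0, 1, 2, 3` modulo four. -/
def spare (t : ℕ) : ℕ := if t % 4 = 1 then 5 else t % 4

/-- Near-uniform on the set `T` of points: entries `m`, `m + 1` at `200` or more points, or close to a
constant at `37` or more points. -/
def NearUniform {n : ℕ} (T : Finset (Fin n)) (v : Fin n → ℕ) : Prop :=
  (200 ≤ T.card ∧ ∃ m : ℕ, 1 ≤ m ∧ ∀ i ∈ T, v i = m ∨ v i = m + 1) ∨
  (37 ≤ T.card ∧ ∃ m : ℕ, T.card + 6 ≤ 2 * m ∧ (∀ i ∈ T, v i ≤ m + 1) ∧
    (((∑ i ∈ T, cost m (v i) : ℕ) : ℝ) + (spare T.card : ℝ) / 2 + 9 / 8 <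
        7 * Real.sqrt T.card / 6 ∨
      ((∑ i ∈ T, cost m (v i) : ℕ) : ℝ) + spare T.card + 2 * Real.sqrt T.card / 3 + 23 / 8 ≤
        (T.card : ℝ) / 4))

/-- The controlled classes. -/
def Controlled {n : ℕ} (d : ℕ) (w : Fin n → ℕ) : Prop :=
  ∃ (T : Finset (Fin n)) (v : Fin n → ℕ), NearUniform T v ∧
    (((∀ i, i ∉ T → w i ≤ 1) ∧ ((∀ i ∈ T, w i = v i) ∨
        ((∀ i ∈ T, w i ≤ v i) ∧ ∑ i ∈ T, (v i + 1).choose 2 ≤ (d + 2).choose 2))) ∨
      ((∀ i ∈ T, v i ≤ w i) ∧ (d + 2).choose 2 ≤ ∑ i ∈ T, (v i + 1).choose 2))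

theorem ctrl_of {n d : ℕ} {w : Fin n → ℕ} (h : Controlled d w) :
    Pool.Agent.Run7.h866.NU.Ctrl d w := by
  obtain ⟨T, v, hv, h⟩ := h
  refine Pool.Agent.Run7.h866.NU.ctrl_of_on (T := T) (v := v) ?_ h
  have ec : ∀ m e, cost m e = Pool.Agent.Run7.h866.NU.cst m e := fun _ _ => rfl
  have es : ∀ t, spare t = Pool.Agent.Run7.h866.NU.cc t := fun _ => rfl
  rcases hv with ⟨h1, m, hm, h2⟩ | ⟨h1, m, hm, h2, h3⟩
  · exact Or.inl ⟨h1, m, hm, h2⟩
  · simp only [ec, es] at h3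
    exact Or.inr ⟨h1, m, hm, h2, h3⟩

theorem result (n : ℕ) : Very n fun P => ∀ (d : ℕ) (w : Fin n → ℕ), Nef P d w →
    ∀ (d' : ℕ) (w' : Fin n → ℕ), Carries d w d' w' → Controlled d' w' → NonSpecial P d w := by
  have hNef : ∀ {n : ℕ} {P : Fin n → Fin 2 → ℂ} {d : ℕ} {w : Fin n → ℕ}, Nef P d w →
      Pool.Agent.TH442.NF.NefAt P d w := by
    intro n P d w h
    rw [Pool.Agent.TH442.NF.nefAt_iff]
    intro G e u hG
    have h1 := h G e u hG.irreducible hG.homogeneous hG.mult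
    unfold Pool.Agent.TH167.SHDefs.inter
    have h2 : ((∑ i, w i * u i : ℕ) : ℤ) ≤ ((d * e : ℕ) : ℤ) := by exact_mod_cast h1
    push_cast at h2
    omega
  obtain ⟨F, hF, hF'⟩ := Pool.Agent.TH603.Cut.exists_family (Fin n × Fin 2)
  refine ⟨F, hF, fun P hP d w hN d' w' hc hC => ?_⟩
  exact Pool.Agent.TH442.NF.of_chain (hF' _ hP) (hNef hN) hc fun P' hP' =>
    Pool.Agent.Run7.h866.NU.ctrl_exp (ctrl_of hC) hP'

end Pool.Agent.Results.MP_0f5763_ag.NefControlledOrbits
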